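import Pool.Agent.U19.RB.Final

/-!
# The red-blue cut problem for directed graphs is NP-complete

The problem asks for a nonempty proper subset `X` of the vertices of a digraph such that at most `r`
red arcs and at most `b` blue arcs leave `X`; no terminals are prescribed. Two large sets `S` and
`T` of new vertices with red arcs from every element of `T` to all other vertices and from all other
vertices to every element of `S` force `S ⊆ X` and `X ∩ T = ∅` for all `X` which few arcs leave. So
terminals can be simulated without parallel arcs. The clique problem for a graph and a number `k` is
then reduced as follows. There is one vertex for every vertex and one for every edge of the graph;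
red arcs go from the vertices of the graph to an element of `T`, blue arcs from an element of `S` to
the edges and from the edges to their two ends. At most `k` red arcs and at most `m - k (k - 1) / 2`
of these blue arcs leave `X` (`m` is the number of edges) if and only if the vertices of the graph in
`X` are a clique with `k` elements and the edges in `X` are the edges of this clique. To avoid the
subtraction, `k (k - 1) / 2` more blue arcs from `S` to `T` are added.
-/

set_option autoImplicit false

namespace Pool.Agent.Results.MP_ac2b6c_lc.NPComplete

open Pool.Agent.NPC Pool.Agent.NPC.U19.RB

/-- The directed red-blue cut problem is in `NP`. Let `C` be any class of instances that contains all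
instances whose digraph is simple (neither loops nor parallel arcs); for instance, the class of all
instances, or the class of these instances only. The directed red-blue cut problem restricted to the
instances in `C` is `NP`-hard; and a polynomial-time algorithm which decides it exists if and only if
`P = NP`. -/
theorem result :
    InNPP (fun I : Inst => IsDigraph I ∧ HasCut I) ∧
    ∀ C : Inst → Prop, (∀ I, IsSimple I → C I) →
      NPHardP (fun I : Inst => IsDigraph I ∧ C I ∧ HasCut I) ∧
      ((∃ A : List Bool → List Bool, PolyTime A ∧
        ∀ I : Inst, IsDigraph I → C I → (A (bits I) = [true] ↔ HasCut I)) ↔
      ∀ L : Set (List Bool), InNP L → InP L) :=
  ⟨inNPP_cut, fun C hC => ⟨hard_cut C hC, decidable_iff C hC⟩⟩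

end Pool.Agent.Results.MP_ac2b6c_lc.NPComplete
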